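import Mathlib

/-!
# MP_773328_co: the parity of the valid hook configuration numbers

`F = ∑ (-1) ^ k z ^ (2k+1) / (k! (k+1)! (2k+1))` is the exponential generating function of
`f (2k+1) = (-1) ^ k catalan k`. Hence `a_n = ∑_m (m-1)! B(m, n)` with integers `B(m, n)`, and
modulo `2` only `m = 1, 2` matter.
-/

set_option autoImplicit false

namespace Pool.Agent.Results.MP_773328_co.OddIffPowerOfTwo

open PowerSeries Finset Nat

/-- The coefficient of `z ^ n` in `F(z)`: it is `(-1) ^ k / (k! (k+1)! (2k+1))` if `n = 2k+1`, and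
`0` if `n` is even. -/
noncomputable def FCoeff (n : ℕ) : ℚ :=
  if n % 2 = 1 then (-1) ^ (n / 2) / ((n / 2)! * (n / 2 + 1)! * (2 * (n / 2 : ℕ) + 1)) else 0

/-- The formal power series `F(z)`. -/
noncomputable def F : PowerSeries ℚ := PowerSeries.mk FCoeff

/-- The numbers `a_n`: `a_n / n!` is the coefficient of `z ^ n` in
`-log (1 - F(z)) = ∑_{m ≥ 1} F(z) ^ m / m`. (As `F` has no constant term, only `m ≤ n` matter.) -/
noncomputable def a (n : ℕ) : ℚ :=
  (n ! : ℚ) * ∑ m ∈ Finset.Icc 1 n, PowerSeries.coeff n (F ^ m) / (m : ℚ)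

/-- the integer coefficients -/
def f (n : ℕ) : ℤ := if n % 2 = 1 then (-1) ^ (n / 2) * (catalan (n / 2) : ℤ) else 0

theorem f_eq (n : ℕ) : (n ! : ℚ) * PowerSeries.coeff n F = (f n : ℚ) := by
  unfold F f FCoeff
  rw [PowerSeries.coeff_mk]
  by_cases h : n % 2 = 1
  · rw [if_pos h, if_pos h]
    obtain ⟨k, rfl⟩ : ∃ k, n = 2 * k + 1 := ⟨n / 2, by omega⟩
    have hk : (2 * k + 1) / 2 = k := by omega
    rw [hk]
    have h1 : ((k + 1 : ℕ) : ℚ) * (catalan k : ℚ) = (k.centralBinom : ℚ) := by
      exact_mod_cast succ_mul_catalan_eq_centralBinom k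
    have h2 : ((k.centralBinom : ℕ) : ℚ) * ((k ! : ℕ) : ℚ) * ((k ! : ℕ) : ℚ) =
        (((2 * k)! : ℕ) : ℚ) := by
      have := Nat.choose_mul_factorial_mul_factorial (show k ≤ 2 * k by omega)
      rw [show 2 * k - k = k by omega] at this
      rw [Nat.centralBinom_eq_two_mul_choose]
      exact_mod_cast this
    have h3 : (((2 * k + 1)! : ℕ) : ℚ) = (2 * (k : ℚ) + 1) * (((2 * k)! : ℕ) : ℚ) := by
      rw [Nat.factorial_succ]; push_cast; ring
    have h4 : (((k + 1)! : ℕ) : ℚ) = ((k : ℚ) + 1) * ((k ! : ℕ) : ℚ) := by
      rw [Nat.factorial_succ]; push_cast; ring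
    have hk0 : ((k ! : ℕ) : ℚ) ≠ 0 := by exact_mod_cast Nat.factorial_ne_zero k
    have hk1 : ((k : ℚ) + 1) ≠ 0 := by positivity
    have hk2 : (2 * (k : ℚ) + 1) ≠ 0 := by positivity
    push_cast at h1 ⊢
    rw [h3, h4, ← h2, ← h1]
    field_simp
  · rw [if_neg h, if_neg h]
    simp

/-- the integers `B(m, n)` -/
def B : ℕ → ℕ → ℤ
  | 0, n => if n = 0 then 1 else 0
  | _ + 1, 0 => 0
  | m + 1, n + 1 => ∑ j ∈ Finset.range (n + 1), (n.choose j : ℤ) * B m j * f (n + 1 - j)

theorem B_eq (m n : ℕ) : (n ! : ℚ) * PowerSeries.coeff n (F ^ m) = (m ! : ℚ) * (B m n : ℚ) := by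
  induction m generalizing n with
  | zero =>
    rw [pow_zero, PowerSeries.coeff_one]
    unfold B
    by_cases h : n = 0
    · subst h; simp
    · simp [h]
  | succ m ih =>
    cases n with
    | zero =>
      have h0 : PowerSeries.constantCoeff F = 0 := by
        rw [← PowerSeries.coeff_zero_eq_constantCoeff_apply]
        have := f_eq 0
        simpa [f] using this
      rw [PowerSeries.coeff_zero_eq_constantCoeff_apply, map_pow, h0]
      simp [B]
    | succ n =>
      have hd : PowerSeries.derivative ℚ (F ^ (m + 1)) =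
          ((m + 1 : ℕ) : PowerSeries ℚ) * (F ^ m * PowerSeries.derivative ℚ F) := by
        rw [Derivation.leibniz_pow]
        simp [smul_eq_mul, nsmul_eq_mul]
      have hc := congrArg (PowerSeries.coeff n) hd
      rw [PowerSeries.coeff_derivative] at hc
      have hn : ((m + 1 : ℕ) : PowerSeries ℚ) = PowerSeries.C ((m + 1 : ℕ) : ℚ) := by
        simp
      rw [hn, PowerSeries.coeff_C_mul, PowerSeries.coeff_mul,
        Finset.Nat.sum_antidiagonal_eq_sum_range_succ_mk] at hc
      have key : (((n + 1)! : ℕ) : ℚ) * PowerSeries.coeff (n + 1) (F ^ (m + 1)) =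
          ((n ! : ℕ) : ℚ) * (PowerSeries.coeff (n + 1) (F ^ (m + 1)) * ((n : ℚ) + 1)) := by
        rw [Nat.factorial_succ]; push_cast; ring
      rw [key, hc]
      unfold B
      push_cast
      rw [Nat.factorial_succ]
      push_cast
      rw [Finset.mul_sum, Finset.mul_sum, Finset.mul_sum]
      refine Finset.sum_congr rfl fun j hj => ?_
      have hj' : j ≤ n := by
        rw [Finset.mem_range] at hj; omega
      rw [PowerSeries.coeff_derivative]
      have e1 := ih j
      have e2 := f_eq (n + 1 - j)
      have e3 := Nat.choose_mul_factorial_mul_factorial hj'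
      have e4 : n + 1 - j = n - j + 1 := by omega
      rw [e4] at e2 ⊢
      have e3' : ((n ! : ℕ) : ℚ) = ((n.choose j : ℕ) : ℚ) * ((j ! : ℕ) : ℚ) *
          (((n - j)! : ℕ) : ℚ) := by exact_mod_cast e3.symm
      rw [Nat.factorial_succ] at e2
      push_cast at e2
      rw [e3', ← e2]
      linear_combination ((m : ℚ) + 1) * ((n.choose j : ℕ) : ℚ) * (((n - j)! : ℕ) : ℚ) *
        (PowerSeries.coeff (n - j + 1) F) * (((n - j : ℕ) : ℚ) + 1) * e1

theorem a_eq (n : ℕ) : a n = ((∑ m ∈ Finset.Icc 1 n, ((m - 1)! : ℤ) * B m n : ℤ) : ℚ) := by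
  unfold a
  rw [Finset.mul_sum]
  push_cast
  refine Finset.sum_congr rfl fun m hm => ?_
  rw [Finset.mem_Icc] at hm
  obtain ⟨k, rfl⟩ : ∃ k, m = k + 1 := ⟨m - 1, by omega⟩
  have h1 := B_eq (k + 1) n
  rw [Nat.factorial_succ] at h1
  rw [Nat.add_sub_cancel, mul_div_assoc', h1]
  push_cast
  have hk : ((k : ℚ) + 1) ≠ 0 := by positivity
  field_simp

theorem f_even {n : ℕ} (h : n % 2 = 0) : f n = 0 := by
  unfold f
  rw [if_neg (by omega)]

theorem B_one (n : ℕ) : B 1 (n + 1) = f (n + 1) := by
  unfold B
  rw [Finset.sum_eq_single 0]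
  · simp [B]
  · intro j _ hj
    simp [B, hj]
  · intro h
    simp at h

theorem B_two (n : ℕ) : B 2 (n + 1) =
    ∑ j ∈ Finset.range (n + 1), (n.choose j : ℤ) * f j * f (n + 1 - j) := by
  conv_lhs => unfold B
  refine Finset.sum_congr rfl fun j _ => ?_
  cases j with
  | zero => simp [B, f]
  | succ j => rw [B_one]

/-- `B(2, n)` is even for `n ≥ 3`. -/
theorem B_two_even (n : ℕ) (hn : 3 ≤ n) : Even (B 2 n) := by
  obtain ⟨k, rfl⟩ : ∃ k, n = k + 1 := ⟨n - 1, by omega⟩
  rw [B_two]
  by_cases hk : (k + 1) % 2 = 1
  · rw [Finset.sum_eq_zero]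
    · exact Even.zero
    · intro j hj
      rw [Finset.mem_range] at hj
      by_cases hj2 : j % 2 = 0
      · rw [f_even hj2]; ring
      · rw [f_even (n := k + 1 - j) (by omega)]; ring
  · obtain ⟨m, hm⟩ : ∃ m, k + 1 = 2 * m := ⟨(k + 1) / 2, by omega⟩
    -- split the sum by reflection `j ↦ k + 1 - j`
    obtain ⟨g, hg⟩ : ∃ g : ℕ → ℤ, g = fun j => (k.choose j : ℤ) * f j * f (k + 1 - j) :=
      ⟨_, rfl⟩
    have hsum : ∑ j ∈ Finset.range (k + 1), (k.choose j : ℤ) * f j * f (k + 1 - j) =
        g m + ∑ j ∈ Finset.range m, (g j + g (k + 1 - j)) := by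
      rw [← hg]
      have e1 : ∑ j ∈ Finset.range (k + 1), g j = ∑ j ∈ Finset.range (k + 2), g j := by
        rw [Finset.sum_range_succ _ (k + 1)]
        have : g (k + 1) = 0 := by
          rw [hg]; simp
        rw [this, add_zero]
      have e2 : ∑ j ∈ Finset.range (k + 2), g j =
          ∑ j ∈ Finset.range m, g j + g m + ∑ j ∈ Finset.range m, g (k + 1 - j) := by
        rw [show k + 2 = m + 1 + m by omega, Finset.sum_range_add g (m + 1) m,
          Finset.sum_range_succ]
        congr 1
        rw [← Finset.sum_range_reflect]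
        refine Finset.sum_congr rfl fun j hj => ?_
        rw [Finset.mem_range] at hj
        congr 1
        omega
      rw [e1, e2, Finset.sum_add_distrib]
      ring
    rw [hsum]
    refine Even.add ?_ (Finset.even_sum _ fun j hj => ?_)
    · -- the middle term
      by_cases hm2 : m % 2 = 0
      · rw [hg]; simp only; rw [f_even hm2]; simp
      · obtain ⟨i, rfl⟩ : ∃ i, m = 2 * i + 1 := ⟨m / 2, by omega⟩
        have hi : 1 ≤ i := by omega
        have hc : Even (k.choose (2 * i + 1)) := by
          have hk' : k = 4 * i + 1 := by omega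
          rw [hk', Nat.even_iff]
          have := Choose.choose_modEq_choose_mod_mul_choose_div_nat (n := 4 * i + 1)
            (k := 2 * i + 1) (p := 2)
          have h1 : (4 * i + 1) % 2 = 1 := by omega
          have h2 : (2 * i + 1) % 2 = 1 := by omega
          have h3 : (4 * i + 1) / 2 = 2 * i := by omega
          have h4 : (2 * i + 1) / 2 = i := by omega
          rw [h1, h2, h3, h4, Nat.choose_self, one_mul] at this
          have h5 : 2 ∣ (2 * i).choose i := by
            rw [← Nat.centralBinom_eq_two_mul_choose]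
            exact Nat.two_dvd_centralBinom_of_one_le hi
          exact this.trans (Nat.modEq_zero_iff_dvd.2 h5)
        rw [hg]
        simp only
        rw [mul_assoc]
        exact Even.mul_right (by exact_mod_cast hc) _
    · rw [Finset.mem_range] at hj
      by_cases hj2 : j % 2 = 0
      · rw [hg]
        simp only
        rw [f_even hj2, f_even (n := k + 1 - j) (by omega)]
        simp
      · have hc : Even ((k + 1).choose j) := by
          have h1 := Nat.add_one_mul_choose_eq k (j - 1)
          have h2 : (j - 1) + 1 = j := by omega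
          rw [h2] at h1
          have h3 : Even ((k + 1).choose j * j) := by
            rw [← h1]
            exact Even.mul_right (by rw [hm]; exact even_two_mul m) _
          rcases Nat.even_mul.1 h3 with h4 | h4
          · exact h4
          · rw [Nat.even_iff] at h4; omega
        have h5 : g j + g (k + 1 - j) = ((k + 1).choose j : ℤ) * (f j * f (k + 1 - j)) := by
          rw [hg]
          simp only
          have h6 : k + 1 - (k + 1 - j) = j := by omega
          rw [h6]
          have h7 : k.choose (k + 1 - j) = k.choose (j - 1) := by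
            rw [← Nat.choose_symm (show k + 1 - j ≤ k by omega)]
            congr 1
            omega
          have h8 : (k + 1).choose j = k.choose (j - 1) + k.choose j := by
            obtain ⟨i, rfl⟩ : ∃ i, j = i + 1 := ⟨j - 1, by omega⟩
            rw [Nat.choose_succ_succ]
            rfl
          rw [h7, h8]
          push_cast
          ring
        rw [h5]
        exact Even.mul_right (by exact_mod_cast hc) _

/-- The parity of the Catalan numbers. -/
theorem catalan_odd (n : ℕ) : Odd (catalan n) ↔ ∃ j, n + 1 = 2 ^ j := by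
  induction n using Nat.strong_induction_on with
  | _ n ih =>
    cases n with
    | zero => simp only [catalan_zero, odd_one, true_iff]; exact ⟨0, rfl⟩
    | succ n =>
      rw [catalan_succ']
      rw [Finset.Nat.sum_antidiagonal_eq_sum_range_succ_mk]
      by_cases hn : n % 2 = 0
      · obtain ⟨m, rfl⟩ : ∃ m, n = 2 * m := ⟨n / 2, by omega⟩
        have e : ∑ j ∈ Finset.range (2 * m).succ, catalan j * catalan (2 * m - j) =
            2 * (∑ j ∈ Finset.range m, catalan j * catalan (2 * m - j)) +
              catalan m * catalan m := by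
          rw [show (2 * m).succ = m + 1 + m by omega, Finset.sum_range_add _ (m + 1) m,
            Finset.sum_range_succ]
          have : ∑ x ∈ Finset.range m, catalan (m + 1 + x) * catalan (2 * m - (m + 1 + x)) =
              ∑ j ∈ Finset.range m, catalan j * catalan (2 * m - j) := by
            rw [← Finset.sum_range_reflect]
            refine Finset.sum_congr rfl fun j hj => ?_
            rw [Finset.mem_range] at hj
            rw [mul_comm]
            congr 2 <;> omega
          rw [this, show 2 * m - m = m by omega]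
          ring
        simp only at e ⊢
        rw [e]
        have h1 : Odd (2 * (∑ j ∈ Finset.range m, catalan j * catalan (2 * m - j)) +
            catalan m * catalan m) ↔ Odd (catalan m) := by
          rw [Nat.odd_add', Nat.odd_mul]
          simp only [even_two_mul, iff_true, and_self]
        rw [h1, ih m (by omega)]
        constructor
        · rintro ⟨j, hj⟩
          exact ⟨j + 1, by rw [pow_succ, ← hj]; ring⟩
        · rintro ⟨j, hj⟩
          cases j with
          | zero => simp at hj
          | succ j =>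
            refine ⟨j, ?_⟩
            rw [pow_succ] at hj
            omega
      · obtain ⟨m, rfl⟩ : ∃ m, n = 2 * m + 1 := ⟨n / 2, by omega⟩
        have e : ∑ j ∈ Finset.range (2 * m + 1).succ, catalan j * catalan (2 * m + 1 - j) =
            2 * (∑ j ∈ Finset.range (m + 1), catalan j * catalan (2 * m + 1 - j)) := by
          rw [show (2 * m + 1).succ = m + 1 + (m + 1) by omega,
            Finset.sum_range_add _ (m + 1) (m + 1)]
          have : ∑ x ∈ Finset.range (m + 1),
              catalan (m + 1 + x) * catalan (2 * m + 1 - (m + 1 + x)) =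
              ∑ j ∈ Finset.range (m + 1), catalan j * catalan (2 * m + 1 - j) := by
            rw [← Finset.sum_range_reflect]
            refine Finset.sum_congr rfl fun j hj => ?_
            rw [Finset.mem_range] at hj
            rw [mul_comm]
            congr 2 <;> omega
          rw [this]
          ring
        simp only at e ⊢
        rw [e]
        constructor
        · intro h
          exact absurd (even_two_mul _) (Nat.not_even_iff_odd.2 h)
        · rintro ⟨j, hj⟩
          exfalso
          cases j with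
          | zero => simp at hj
          | succ j =>
            rw [pow_succ] at hj
            omega

theorem f_odd (n : ℕ) (hn : 3 ≤ n) : Odd (f n) ↔ ∃ j, n + 1 = 2 ^ j := by
  by_cases h : n % 2 = 1
  · obtain ⟨k, rfl⟩ : ∃ k, n = 2 * k + 1 := ⟨n / 2, by omega⟩
    have hk : (2 * k + 1) / 2 = k := by omega
    unfold f
    rw [if_pos h, hk]
    have h1 : Odd ((-1 : ℤ) ^ k * (catalan k : ℤ)) ↔ Odd (catalan k) := by
      rw [Int.odd_mul]
      have : Odd ((-1 : ℤ) ^ k) := Odd.pow (by decide)
      simp only [this, true_and]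
      exact_mod_cast Iff.rfl
    rw [h1, catalan_odd]
    constructor
    · rintro ⟨j, hj⟩
      exact ⟨j + 1, by rw [pow_succ, ← hj]; ring⟩
    · rintro ⟨j, hj⟩
      cases j with
      | zero => simp at hj
      | succ j =>
        refine ⟨j, ?_⟩
        rw [pow_succ] at hj
        omega
  · rw [f_even (by omega)]
    constructor
    · intro h'
      exact absurd Even.zero (Int.not_even_iff_odd.2 h')
    · rintro ⟨j, hj⟩
      exfalso
      cases j with
      | zero => simp at hj; omega
      | succ j =>
        rw [pow_succ] at hj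
        omega

/-- For every `n ≥ 3`, the number `a_n` is an integer, and it is odd if and only if `n + 1` is
a power of two. -/
theorem result (n : ℕ) (hn : 3 ≤ n) :
    ∃ z : ℤ, a n = z ∧ (Odd z ↔ ∃ j : ℕ, n + 1 = 2 ^ j) := by
  refine ⟨_, a_eq n, ?_⟩
  obtain ⟨k, rfl⟩ : ∃ k, n = k + 2 := ⟨n - 2, by omega⟩
  have e : ∑ m ∈ Finset.Icc 1 (k + 2), ((m - 1)! : ℤ) * B m (k + 2) =
      B 1 (k + 2) + B 2 (k + 2) +
        ∑ m ∈ Finset.Icc 3 (k + 2), ((m - 1)! : ℤ) * B m (k + 2) := by
    rw [← Finset.sum_subset (s₁ := {1, 2} ∪ Finset.Icc 3 (k + 2))]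
    · rw [Finset.sum_union, Finset.sum_pair (by norm_num)]
      · simp
      · rw [Finset.disjoint_left]
        intro x hx hx2
        simp only [Finset.mem_insert, Finset.mem_singleton, Finset.mem_Icc] at hx hx2
        omega
    · intro x hx
      simp only [Finset.mem_union, Finset.mem_insert, Finset.mem_singleton,
        Finset.mem_Icc] at hx ⊢
      omega
    · intro x hx hx2
      exfalso
      simp only [Finset.mem_union, Finset.mem_insert, Finset.mem_singleton,
        Finset.mem_Icc] at hx hx2
      omega
  have h3 : Even (∑ m ∈ Finset.Icc 3 (k + 2), ((m - 1)! : ℤ) * B m (k + 2)) := by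
    refine Finset.even_sum _ fun m hm => ?_
    rw [Finset.mem_Icc] at hm
    refine Even.mul_right ?_ _
    have : 2 ∣ (m - 1)! := Nat.dvd_factorial (by norm_num) (by omega)
    exact_mod_cast (even_iff_two_dvd.2 this)
  have h2 := B_two_even (k + 2) hn
  have h1 := B_one (k + 1)
  rw [← f_odd (k + 2) hn, e]
  rw [show k + 1 + 1 = k + 2 by rfl] at h1
  rw [h1]
  rw [Int.odd_add, Int.odd_add]
  simp only [h2, h3, iff_true]

end Pool.Agent.Results.MP_773328_co.OddIffPowerOfTwo
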